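import Pool.Agent.Helper4.P11.StD
import Pool.Agent.Helper84.P11.D1

/-!
# Project P11, module Sur: solving the inhomogeneous relation

After `Helper88/S7/M_Sur.lean`.
-/

set_option autoImplicit false

namespace Pool.Agent.Helper55.P11

open Pool.Agent.Helper4.P11 Pool.Agent.Helper84.P11
open Pool.Agent.Helper10.P11 (pj S11Pj pj11)
open Pool.Agent.Helper2.P11 (Df11)

private theorem decomp_Sur (hLow0 : S11Low0) (hBb : S11Bb) (r s : ℕ) (e : ℤ) (E : Fn11 (11 ^ r) (11 ^ s))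
    (he : e < 11 ^ r + 11 ^ s - 2) (hE : E ∈ Wd11 e) :
    ∃ U V : Fn11 (11 ^ r) (11 ^ s), U ∈ Wd11 (e + 1) ∧ V ∈ Wd11 (e + 1) ∧ dX U + dY V = E := by
  obtain ⟨_, _, _, _, hmono, _⟩ := hLow0 r s
  obtain ⟨h1, h2, h3, _, _, h6⟩ := hBb r s
  set c : ℕ → ℕ → ZMod 11 := fun i j =>
    ((dX ^ i * dY ^ j : Module.End (ZMod 11) (Fn11 (11 ^ r) (11 ^ s))) E) 0 0 with hc
  have hc0 : ∀ i j : ℕ, e < (i : ℤ) + j → c i j = 0 := by
    intro i j hij
    have : ((dX ^ i * dY ^ j : Module.End (ZMod 11) (Fn11 (11 ^ r) (11 ^ s))) E) = 0 := hE i j hij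
    rw [hc]
    simp only [this]
    rfl
  have hj : ∀ i j : ℕ, i < 11 ^ r → (i : ℤ) + j ≤ e → ¬ (i + 1 < 11 ^ r) → j + 1 < 11 ^ s := by
    intro i j hi hij hi1
    have h7 : i + 1 = 11 ^ r := by omega
    have h8 : (i : ℤ) + 1 = 11 ^ r := by exact_mod_cast h7
    have h9 : (j : ℤ) + 1 < 11 ^ s := by linarith
    exact_mod_cast h9
  refine ⟨∑ i ∈ Finset.range (11 ^ r), ∑ j ∈ Finset.range (11 ^ s),
      (if i + 1 < 11 ^ r then c i j • bb11 (i + 1) j else 0),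
    ∑ i ∈ Finset.range (11 ^ r), ∑ j ∈ Finset.range (11 ^ s),
      (if i + 1 < 11 ^ r then 0 else c i j • bb11 i (j + 1)), ?_, ?_, ?_⟩
  · refine Submodule.sum_mem _ fun i hi => Submodule.sum_mem _ fun j hj => ?_
    rw [Finset.mem_range] at hi hj
    split_ifs with h
    · by_cases hij : (i : ℤ) + j ≤ e
      · refine Submodule.smul_mem _ _ (hmono _ _ ?_ (h1 (i + 1) j h hj))
        push_cast
        linarith
      · rw [hc0 i j (not_le.1 hij), zero_smul]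
        exact Submodule.zero_mem _
    · exact Submodule.zero_mem _
  · refine Submodule.sum_mem _ fun i hi => Submodule.sum_mem _ fun j _ => ?_
    rw [Finset.mem_range] at hi
    split_ifs with h
    · exact Submodule.zero_mem _
    · by_cases hij : (i : ℤ) + j ≤ e
      · refine Submodule.smul_mem _ _ (hmono _ _ ?_ (h1 i (j + 1) hi (hj i j hi hij h)))
        push_cast
        linarith
      · rw [hc0 i j (not_le.1 hij), zero_smul]
        exact Submodule.zero_mem _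
  · refine Eq.trans ?_ (h6 E).symm
    rw [map_sum, map_sum, ← Finset.sum_add_distrib]
    refine Finset.sum_congr rfl fun i hi => ?_
    rw [map_sum, map_sum, ← Finset.sum_add_distrib]
    refine Finset.sum_congr rfl fun j hj' => ?_
    rw [Finset.mem_range] at hi hj'
    have hcc : ((dX ^ i * dY ^ j : Module.End (ZMod 11) (Fn11 (11 ^ r) (11 ^ s))) E) 0 0 = c i j := rfl
    rw [hcc]
    by_cases h : i + 1 < 11 ^ r
    · rw [if_pos h, if_pos h, map_smul, map_zero, add_zero, h2 i j h hj']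
    · rw [if_neg h, if_neg h, map_smul, map_zero, zero_add]
      by_cases hij : (i : ℤ) + j ≤ e
      · rw [h3 i j hi (hj i j hi hij h)]
      · rw [hc0 i j (not_le.1 hij), zero_smul, zero_smul]

/-- The algebra of one step. -/
private theorem alg_Sur {M : Type} [AddCommGroup M] [Module (ZMod 11) M] (W : Submodule (ZMod 11) M)
    (E E0 E3 P TP XP Q aQ bQ x y : M)
    (h1 : TP - P - XP ∈ W)
    (h2 : aQ - ((5 : ZMod 11) • Q + (7 : ZMod 11) • x + (7 : ZMod 11) • y) ∈ W)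
    (h3 : bQ - ((9 : ZMod 11) • Q + (4 : ZMod 11) • x + (8 : ZMod 11) • y) ∈ W)
    (h5 : E0 + E3 - (XP + y) ∈ W) :
    (E - (-P - -TP - ((4 : ZMod 11) • Q - (4 : ZMod 11) • aQ) -
      ((9 : ZMod 11) • Q - (9 : ZMod 11) • bQ))) - (E - E0 - E3 - (9 : ZMod 11) • x) ∈ W := by
  have h6 : (88 : ZMod 11) = 0 := by decide
  have h7 : (55 : ZMod 11) = 0 := by decide
  have h7' : (99 : ZMod 11) = 0 := by decide
  have h8 : (E - (-P - -TP - ((4 : ZMod 11) • Q - (4 : ZMod 11) • aQ) -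
      ((9 : ZMod 11) • Q - (9 : ZMod 11) • bQ))) - (E - E0 - E3 - (9 : ZMod 11) • x) =
      -(TP - P - XP) - (4 : ZMod 11) • (aQ - ((5 : ZMod 11) • Q + (7 : ZMod 11) • x + (7 : ZMod 11) • y)) -
        (9 : ZMod 11) • (bQ - ((9 : ZMod 11) • Q + (4 : ZMod 11) • x + (8 : ZMod 11) • y)) +
        (E0 + E3 - (XP + y)) - (88 : ZMod 11) • Q - (55 : ZMod 11) • x - (99 : ZMod 11) • y := by
    module
  rw [h8, h6, h7, h7', zero_smul, zero_smul, zero_smul, sub_zero, sub_zero, sub_zero]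
  exact Submodule.add_mem _ (Submodule.sub_mem _ (Submodule.sub_mem _
    (Submodule.neg_mem _ h1) (Submodule.smul_mem _ _ h2)) (Submodule.smul_mem _ _ h3)) h5

/-- One step of the induction. -/
private theorem step_Sur (hPst : TPst) (hSol : TSol)
    (r s : ℕ) (e : ℤ) (E : Fn11 (11 ^ r) (11 ^ s)) (he : e < 11 ^ r + 11 ^ s - 2) (hE : E ∈ Wd11 e) :
    ∃ f a b : Fn11 (11 ^ r) (11 ^ s), f ∈ Wd11 (e + 1) ∧ a ∈ Wd11 (e + 1) ∧ b ∈ Wd11 (e + 1) ∧
      E - (f - op11 1 1 0 1 f - (a - op11 7 (-2) 1 (-3) a) - (b - op11 8 (-3) 1 (-4) b)) ∈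
        (Wd11 (e - 1) : Submodule (ZMod 11) (Fn11 (11 ^ r) (11 ^ s))) := by
  obtain ⟨_, _, _, _, hmono, _, hdX, hdY, _⟩ := low0 r s
  obtain ⟨_, _, _, _, _, _, hA, _⟩ := nfa r s
  obtain ⟨hp0, _, hp10, _, hpp, hpd, _⟩ := pj11 r s
  obtain ⟨P, Q, hP, hQ, hPQ⟩ := decomp_Sur low0 bb r s e E he hE
  -- projections preserve degrees
  have hp : ∀ (c : ℕ) (d : ℤ) (F : Fn11 (11 ^ r) (11 ^ s)), F ∈ Wd11 d → pj c F ∈ Wd11 d := by
    intro c d F hF
    have := hp0 c d F hF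
    rwa [sub_zero] at this
  have hx : ∀ F : Fn11 (11 ^ r) (11 ^ s), F ∈ Wd11 (e + 1) → dX F ∈ Wd11 e := by
    intro F hF
    have := hdX _ F hF
    rwa [add_sub_cancel_right] at this
  have h14 : (pj 14 : Module.End (ZMod 11) (Fn11 (11 ^ r) (11 ^ s))) = pj 4 := hp10 4
  -- commutation of projections and differences
  have hcx : ∀ (c : ℕ) (F : Fn11 (11 ^ r) (11 ^ s)), F ∈ Wd11 (e + 1) →
      pj c (dX F) - dX (pj (c + 1) F) ∈
        (Wd11 (e - 1) : Submodule (ZMod 11) (Fn11 (11 ^ r) (11 ^ s))) := by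
    intro c F hF
    exact hmono _ _ (by linarith) ((hpd c).1 _ F hF)
  have hcy : ∀ (c : ℕ) (F : Fn11 (11 ^ r) (11 ^ s)), F ∈ Wd11 (e + 1) →
      pj c (dY F) - dY (pj (c + 9) F) ∈
        (Wd11 (e - 1) : Submodule (ZMod 11) (Fn11 (11 ^ r) (11 ^ s))) := by
    intro c F hF
    exact hmono _ _ (by linarith) ((hpd c).2 _ F hF)
  -- orthogonality
  have hor : ∀ (c c' : ℕ) (d : ℤ) (F : Fn11 (11 ^ r) (11 ^ s)), c < 10 → c' < 10 → c ≠ c' → F ∈ Wd11 d →
      pj c (pj c' F) ∈ (Wd11 (d - 13) : Submodule (ZMod 11) (Fn11 (11 ^ r) (11 ^ s))) := by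
    intro c c' d F hc hc' hne hF
    have h9 := hpp c c' hc hc' _ F hF
    rw [if_neg hne, sub_zero] at h9
    exact h9
  have hid : ∀ (c : ℕ) (d : ℤ) (F : Fn11 (11 ^ r) (11 ^ s)), c < 10 → F ∈ Wd11 d →
      pj c (pj c F) - pj c F ∈ (Wd11 (d - 13) : Submodule (ZMod 11) (Fn11 (11 ^ r) (11 ^ s))) := by
    intro c d F hc hF
    have h9 := hpp c c hc hc _ F hF
    rw [if_pos rfl] at h9
    exact h9
  -- the functions
  obtain ⟨P', hP'⟩ : ∃ P' : Fn11 (11 ^ r) (11 ^ s), P' = pj 1 P + pj 6 P := ⟨_, rfl⟩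
  obtain ⟨Q', hQ'⟩ : ∃ Q' : Fn11 (11 ^ r) (11 ^ s), Q' = pj 9 Q + pj 4 Q := ⟨_, rfl⟩
  have hP'm : P' ∈ Wd11 (e + 1) := by
    rw [hP']; exact Submodule.add_mem _ (hp 1 _ _ hP) (hp 6 _ _ hP)
  have hQ'm : Q' ∈ Wd11 (e + 1) := by
    rw [hQ']; exact Submodule.add_mem _ (hp 9 _ _ hQ) (hp 4 _ _ hQ)
  have g1 : op11 1 1 0 1 P' - P' - dX P' ∈
      (Wd11 (e - 1) : Submodule (ZMod 11) (Fn11 (11 ^ r) (11 ^ s))) :=
    hmono _ _ (by linarith) (hA _ _ hP'm)
  have g2k : ∀ k : ℕ, k = 9 ∨ k = 4 → op11 7 (-2) 1 (-3) (pj k Q) - ((5 : ZMod 11) • pj k Q +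
      (7 : ZMod 11) • dX (pj k Q) + (7 : ZMod 11) • dY (pj k Q)) ∈
      (Wd11 (e - 1) : Submodule (ZMod 11) (Fn11 (11 ^ r) (11 ^ s))) := by
    intro k hk
    have h9 := hmono _ (e - 1) (by linarith) ((hPst r s k).1 _ _ hQ)
    have h10 : (9 : ZMod 11) ^ k = 5 := by rcases hk with rfl | rfl <;> decide
    have h11 : (6 * (9 : ZMod 11) ^ (k + 9)) = 7 := by rcases hk with rfl | rfl <;> decide
    have h12 : (7 * (9 : ZMod 11) ^ (k + 1)) = 7 := by rcases hk with rfl | rfl <;> decide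
    rw [h10, h11, h12, Module.End.mul_apply, LinearMap.sub_apply, LinearMap.sub_apply,
      LinearMap.sub_apply, LinearMap.smul_apply, LinearMap.smul_apply, LinearMap.smul_apply,
      Module.End.one_apply] at h9
    rw [sub_add_eq_sub_sub, sub_add_eq_sub_sub]
    exact h9
  have g3k : ∀ k : ℕ, k = 9 ∨ k = 4 → op11 8 (-3) 1 (-4) (pj k Q) - ((9 : ZMod 11) • pj k Q +
      (4 : ZMod 11) • dX (pj k Q) + (8 : ZMod 11) • dY (pj k Q)) ∈
      (Wd11 (e - 1) : Submodule (ZMod 11) (Fn11 (11 ^ r) (11 ^ s))) := by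
    intro k hk
    have h9 := hmono _ (e - 1) (by linarith) ((hPst r s k).2 _ _ hQ)
    have h10 : (5 : ZMod 11) ^ k = 9 := by rcases hk with rfl | rfl <;> decide
    have h11 : (5 : ZMod 11) ^ (k + 9) = 4 := by rcases hk with rfl | rfl <;> decide
    have h12 : (8 * (5 : ZMod 11) ^ (k + 1)) = 8 := by rcases hk with rfl | rfl <;> decide
    rw [h10, h11, h12, Module.End.mul_apply, LinearMap.sub_apply, LinearMap.sub_apply,
      LinearMap.sub_apply, LinearMap.smul_apply, LinearMap.smul_apply, LinearMap.smul_apply,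
      Module.End.one_apply] at h9
    rw [sub_add_eq_sub_sub, sub_add_eq_sub_sub]
    exact h9
  have g2 : op11 7 (-2) 1 (-3) Q' - ((5 : ZMod 11) • Q' + (7 : ZMod 11) • dX Q' +
      (7 : ZMod 11) • dY Q') ∈
      (Wd11 (e - 1) : Submodule (ZMod 11) (Fn11 (11 ^ r) (11 ^ s))) := by
    have h9 := Submodule.add_mem _ (g2k 9 (Or.inl rfl)) (g2k 4 (Or.inr rfl))
    have h12 : op11 7 (-2) 1 (-3) Q' - ((5 : ZMod 11) • Q' + (7 : ZMod 11) • dX Q' +
      (7 : ZMod 11) • dY Q') = op11 7 (-2) 1 (-3) (pj 9 Q) - ((5 : ZMod 11) • pj 9 Q +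
      (7 : ZMod 11) • dX (pj 9 Q) + (7 : ZMod 11) • dY (pj 9 Q)) +
      (op11 7 (-2) 1 (-3) (pj 4 Q) - ((5 : ZMod 11) • pj 4 Q +
      (7 : ZMod 11) • dX (pj 4 Q) + (7 : ZMod 11) • dY (pj 4 Q))) := by
      rw [hQ', map_add (op11 7 (-2) 1 (-3)), map_add dX, map_add dY]
      module
    rw [h12]
    exact h9
  have g3 : op11 8 (-3) 1 (-4) Q' - ((9 : ZMod 11) • Q' + (4 : ZMod 11) • dX Q' +
      (8 : ZMod 11) • dY Q') ∈
      (Wd11 (e - 1) : Submodule (ZMod 11) (Fn11 (11 ^ r) (11 ^ s))) := by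
    have h9 := Submodule.add_mem _ (g3k 9 (Or.inl rfl)) (g3k 4 (Or.inr rfl))
    have h12 : op11 8 (-3) 1 (-4) Q' - ((9 : ZMod 11) • Q' + (4 : ZMod 11) • dX Q' +
      (8 : ZMod 11) • dY Q') = op11 8 (-3) 1 (-4) (pj 9 Q) - ((9 : ZMod 11) • pj 9 Q +
      (4 : ZMod 11) • dX (pj 9 Q) + (8 : ZMod 11) • dY (pj 9 Q)) +
      (op11 8 (-3) 1 (-4) (pj 4 Q) - ((9 : ZMod 11) • pj 4 Q +
      (4 : ZMod 11) • dX (pj 4 Q) + (8 : ZMod 11) • dY (pj 4 Q))) := by
      rw [hQ', map_add (op11 8 (-3) 1 (-4)), map_add dX, map_add dY]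
      module
    rw [h12]
    exact h9
  -- `dY Q'` has the classes 0 and 5
  have g0 : dY Q' - (pj 0 (dY Q) + pj 5 (dY Q)) ∈
      (Wd11 (e - 1) : Submodule (ZMod 11) (Fn11 (11 ^ r) (11 ^ s))) := by
    have h9 := hcy 0 Q hQ
    have h10 := hcy 5 Q hQ
    have h11 : (5 + 9 : ℕ) = 14 := rfl
    rw [h11, h14] at h10
    have h12 : dY Q' - (pj 0 (dY Q) + pj 5 (dY Q)) =
        -(pj 0 (dY Q) - dY (pj (0 + 9) Q)) - (pj 5 (dY Q) - dY (pj 4 Q)) := by
      rw [hQ', map_add dY]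
      abel
    rw [h12]
    exact Submodule.sub_mem _ (Submodule.neg_mem _ h9) h10
  have g5 : pj 0 E + pj 5 E - (dX P' + dY Q') ∈
      (Wd11 (e - 1) : Submodule (ZMod 11) (Fn11 (11 ^ r) (11 ^ s))) := by
    have h9 := hcx 0 P hP
    have h10 := hcx 5 P hP
    have h12 : pj 0 E + pj 5 E - (dX P' + dY Q') =
        (pj 0 (dX P) - dX (pj (0 + 1) P)) + (pj 5 (dX P) - dX (pj (5 + 1) P)) -
        (dY Q' - (pj 0 (dY Q) + pj 5 (dY Q))) := by
      rw [← hPQ, hP', map_add (pj 0), map_add (pj 5), map_add dX]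
      abel
    rw [h12]
    exact Submodule.sub_mem _ (Submodule.add_mem _ h9 h10) g0
  -- the error
  have hR := alg_Sur (Wd11 (e - 1) : Submodule (ZMod 11) (Fn11 (11 ^ r) (11 ^ s))) E (pj 0 E) (pj 5 E)
    P' (op11 1 1 0 1 P') (dX P') Q' (op11 7 (-2) 1 (-3) Q') (op11 8 (-3) 1 (-4) Q')
    (dX Q') (dY Q') g1 g2 g3 g5
  have hf : (op11 1 1 0 1 (-P') : Fn11 (11 ^ r) (11 ^ s)) = -op11 1 1 0 1 P' := map_neg _ _
  have hfa : (op11 7 (-2) 1 (-3) ((4 : ZMod 11) • Q') : Fn11 (11 ^ r) (11 ^ s)) =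
      (4 : ZMod 11) • op11 7 (-2) 1 (-3) Q' := map_smul _ _ _
  have hfb : (op11 8 (-3) 1 (-4) ((9 : ZMod 11) • Q') : Fn11 (11 ^ r) (11 ^ s)) =
      (9 : ZMod 11) • op11 8 (-3) 1 (-4) Q' := map_smul _ _ _
  rw [← hf, ← hfa, ← hfb] at hR
  obtain ⟨R, hRdef⟩ : ∃ R : Fn11 (11 ^ r) (11 ^ s), R = E - (-P' - op11 1 1 0 1 (-P') -
      ((4 : ZMod 11) • Q' - op11 7 (-2) 1 (-3) ((4 : ZMod 11) • Q')) -
      ((9 : ZMod 11) • Q' - op11 8 (-3) 1 (-4) ((9 : ZMod 11) • Q'))) := ⟨_, rfl⟩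
  rw [← hRdef] at hR
  -- the error has no classes 0 and 5
  have hcl : ∀ c : ℕ, (c = 0 ∨ c = 5) → pj c (dX Q') ∈
      (Wd11 (e - 1) : Submodule (ZMod 11) (Fn11 (11 ^ r) (11 ^ s))) := by
    intro c hc
    have h10 := hcx c Q' hQ'm
    have h11 : pj (c + 1) Q' ∈ (Wd11 (e - 1) : Submodule (ZMod 11) (Fn11 (11 ^ r) (11 ^ s))) := by
      rw [hQ', map_add (pj (c + 1))]
      rcases hc with rfl | rfl
      · exact Submodule.add_mem _
          (hmono _ _ (by linarith) (hor 1 9 _ _ (by norm_num) (by norm_num) (by norm_num) hQ))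
          (hmono _ _ (by linarith) (hor 1 4 _ _ (by norm_num) (by norm_num) (by norm_num) hQ))
      · exact Submodule.add_mem _
          (hmono _ _ (by linarith) (hor 6 9 _ _ (by norm_num) (by norm_num) (by norm_num) hQ))
          (hmono _ _ (by linarith) (hor 6 4 _ _ (by norm_num) (by norm_num) (by norm_num) hQ))
    have h12 : dX (pj (c + 1) Q') ∈
        (Wd11 (e - 1) : Submodule (ZMod 11) (Fn11 (11 ^ r) (11 ^ s))) :=
      hmono _ _ (by linarith) (hdX _ _ h11)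
    have h13 : pj c (dX Q') = (pj c (dX Q') - dX (pj (c + 1) Q')) + dX (pj (c + 1) Q') := by abel
    rw [h13]
    exact Submodule.add_mem _ h10 h12
  have hRe : R = (R - (E - pj 0 E - pj 5 E - (9 : ZMod 11) • dX Q')) +
      (E - pj 0 E - pj 5 E - (9 : ZMod 11) • dX Q') := by abel
  have hR0 : pj 0 R ∈ (Wd11 (e - 1) : Submodule (ZMod 11) (Fn11 (11 ^ r) (11 ^ s))) := by
    rw [hRe, map_add (pj 0), map_sub (pj 0) (E - pj 0 E - pj 5 E), map_sub (pj 0) (E - pj 0 E),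
      map_sub (pj 0) E, map_smul]
    have h9 := hmono _ (e - 1) (by linarith) (hid 0 e E (by norm_num) hE)
    have h10 := hmono _ (e - 1) (by linarith)
      (hor 0 5 e E (by norm_num) (by norm_num) (by norm_num) hE)
    have h11 := hcl 0 (Or.inl rfl)
    refine Submodule.add_mem _ (hp 0 _ _ hR) (Submodule.sub_mem _ (Submodule.sub_mem _ ?_ h10)
      (Submodule.smul_mem _ _ h11))
    have h12 : pj 0 E - pj 0 (pj 0 E) = -(pj 0 (pj 0 E) - pj 0 E) := by abel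
    rw [h12]
    exact Submodule.neg_mem _ h9
  have hR3 : pj 5 R ∈ (Wd11 (e - 1) : Submodule (ZMod 11) (Fn11 (11 ^ r) (11 ^ s))) := by
    rw [hRe, map_add (pj 5), map_sub (pj 5) (E - pj 0 E - pj 5 E), map_sub (pj 5) (E - pj 0 E),
      map_sub (pj 5) E, map_smul]
    have h9 := hmono _ (e - 1) (by linarith) (hid 5 e E (by norm_num) hE)
    have h10 := hmono _ (e - 1) (by linarith)
      (hor 5 0 e E (by norm_num) (by norm_num) (by norm_num) hE)
    have h11 := hcl 5 (Or.inr rfl)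
    refine Submodule.add_mem _ (hp 5 _ _ hR) (Submodule.sub_mem _ ?_ (Submodule.smul_mem _ _ h11))
    have h12 : pj 5 E - pj 5 (pj 0 E) - pj 5 (pj 5 E) =
        -(pj 5 (pj 5 E) - pj 5 E) - pj 5 (pj 0 E) := by abel
    rw [h12]
    exact Submodule.sub_mem _ (Submodule.neg_mem _ h9) h10
  have hRm : R ∈ (Wd11 e : Submodule (ZMod 11) (Fn11 (11 ^ r) (11 ^ s))) := by
    rw [hRe]
    refine Submodule.add_mem _ (hmono _ _ (by linarith) hR) (Submodule.sub_mem _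
      (Submodule.sub_mem _ (Submodule.sub_mem _ hE (hp 0 _ _ hE)) (hp 5 _ _ hE))
      (Submodule.smul_mem _ _ (hx _ hQ'm)))
  obtain ⟨a', ha', ha''⟩ := hSol r s e R hRm hR0 hR3
  refine ⟨-P', (4 : ZMod 11) • Q' - a', (9 : ZMod 11) • Q', Submodule.neg_mem _ hP'm,
    Submodule.sub_mem _ (Submodule.smul_mem _ _ hQ'm) (hmono _ _ (by linarith) ha'),
    Submodule.smul_mem _ _ hQ'm, ?_⟩
  have h14 : E - (-P' - op11 1 1 0 1 (-P') - ((4 : ZMod 11) • Q' - a' -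
      op11 7 (-2) 1 (-3) ((4 : ZMod 11) • Q' - a')) -
      ((9 : ZMod 11) • Q' - op11 8 (-3) 1 (-4) ((9 : ZMod 11) • Q'))) =
      R - (a' - op11 7 (-2) 1 (-3) a') := by
    rw [hRdef, map_sub (op11 7 (-2) 1 (-3))]
    abel
  rw [h14]
  exact ha''

private theorem main_Sur (hPst : TPst) (hSol : TSol) (r s : ℕ) :
    ∀ (n : ℕ) (e : ℤ) (E : Fn11 (11 ^ r) (11 ^ s)), e < n → e < 11 ^ r + 11 ^ s - 2 → E ∈ Wd11 e →
    ∃ f a b : Fn11 (11 ^ r) (11 ^ s), f ∈ Wd11 (e + 1) ∧ a ∈ Wd11 (e + 1) ∧ b ∈ Wd11 (e + 1) ∧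
      f - op11 1 1 0 1 f - (a - op11 7 (-2) 1 (-3) a) - (b - op11 8 (-3) 1 (-4) b) = E := by
  have hL := low0 r s
  obtain ⟨_, _, _, _, hmono, _, _, _, _, _, _, _, _, hneg⟩ := hL
  intro n
  induction n with
  | zero =>
    intro e E he _ hE
    have h1 : E = 0 := hneg E (hmono e (-1) (by
      have : e < 0 := by exact_mod_cast he
      omega) hE)
    refine ⟨0, 0, 0, Submodule.zero_mem _, Submodule.zero_mem _, Submodule.zero_mem _, ?_⟩
    rw [h1, map_zero, map_zero, map_zero]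
    simp
  | succ n ih =>
    intro e E he he2 hE
    obtain ⟨f, a, b, hf, ha, hb, hR⟩ := step_Sur hPst hSol r s e E he2 hE
    obtain ⟨f', a', b', hf', ha', hb', hR'⟩ := ih (e - 1) _ (by push_cast at he; linarith)
      (by linarith) hR
    have h6 : e - 1 + 1 = e := by ring
    rw [h6] at hf' ha' hb'
    refine ⟨f + f', a + a', b + b', Submodule.add_mem _ hf (hmono _ _ (by linarith) hf'),
      Submodule.add_mem _ ha (hmono _ _ (by linarith) ha'),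
      Submodule.add_mem _ hb (hmono _ _ (by linarith) hb'), ?_⟩
    rw [map_add (op11 1 1 0 1) f f', map_add (op11 7 (-2) 1 (-3)) a a',
      map_add (op11 8 (-3) 1 (-4)) b b']
    have h7 : f + f' - (op11 1 1 0 1 f + op11 1 1 0 1 f') -
        (a + a' - (op11 7 (-2) 1 (-3) a + op11 7 (-2) 1 (-3) a')) -
        (b + b' - (op11 8 (-3) 1 (-4) b + op11 8 (-3) 1 (-4) b')) =
        (f - op11 1 1 0 1 f - (a - op11 7 (-2) 1 (-3) a) - (b - op11 8 (-3) 1 (-4) b)) +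
        (f' - op11 1 1 0 1 f' - (a' - op11 7 (-2) 1 (-3) a') - (b' - op11 8 (-3) 1 (-4) b')) := by
      abel
    rw [h7, hR']
    abel

theorem hSur (hp : TPst) (hs : TSol) : TSur := by
  intro r s e E he hE
  obtain ⟨f, a, b, hf, ha, hbb, h⟩ := main_Sur hp hs r s (e + 1).toNat e E (by
    have := Int.self_le_toNat (e + 1)
    linarith) he hE
  refine ⟨![f, a, b], ?_, ?_⟩
  · intro i
    fin_cases i
    · exact hf
    · exact ha
    · exact hbb
  · have e0 : (Df11 (![f, a, b] : Fin 3 → Fn11 (11 ^ r) (11 ^ s)) : Fn11 (11 ^ r) (11 ^ s)) =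
        f - op11 1 1 0 1 f - (a - op11 7 (-2) 1 (-3) a) - (b - op11 8 (-3) 1 (-4) b) := rfl
    rw [e0]
    exact h

end Pool.Agent.Helper55.P11
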