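import Pool.Agent.Helper76.P11.StC

/-!
# Project P11, module SPLIT: sum of two invariant functions

Port of `Helper36/S7/M_Split.lean` (`7` replaced by `11`).
-/

set_option autoImplicit false

namespace Pool.Agent.Helper55.P11

open Pool.Agent.Helper76.P11

private lemma split_pow {m : ℕ} : (11 : ZMod (11 ^ m)) ^ m = 0 := by
  have h := ZMod.natCast_self (11 ^ m)
  push_cast at h
  exact h

private lemma split_unit {m : ℕ} (μ : ℕ) (z : ZMod (11 ^ m)) :
    IsUnit (1 + (11 : ZMod (11 ^ m)) ^ (μ + 1) * z) := by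
  have hn : IsNilpotent ((11 : ZMod (11 ^ m)) ^ (μ + 1) * z) := by
    refine ⟨m, ?_⟩
    rw [mul_pow, ← pow_mul, mul_comm (μ + 1) m, pow_mul, split_pow, zero_pow (by omega), zero_mul]
  exact hn.isUnit_one_add

private lemma split_inv {m : ℕ} (μ : ℕ) (z : ZMod (11 ^ m)) :
    (1 + (11 : ZMod (11 ^ m)) ^ (μ + 1) * z) * (1 + (11 : ZMod (11 ^ m)) ^ (μ + 1) * z)⁻¹ = 1 :=
  ZMod.mul_inv_of_unit _ (split_unit μ z)

/-- cancellation of a unit -/
private lemma split_cancel {m : ℕ} (μ : ℕ) (z a b : ZMod (11 ^ m))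
    (h : (1 + (11 : ZMod (11 ^ m)) ^ (μ + 1) * z) * a = (1 + (11 : ZMod (11 ^ m)) ^ (μ + 1) * z) * b) :
    a = b := (split_unit μ z).mul_left_cancel h

private lemma split_dR {m : ℕ} (μ : ℕ) (p : Pt m) :
    dR μ p = (-1 - p.1, -p.2 * (1 + (11 : ZMod (11 ^ m)) ^ (μ + 1) * p.2)⁻¹) := by
  have h1 : ((1 : ZMod (11 ^ m)))⁻¹ = 1 := ZMod.inv_one (11 ^ m)
  simp only [dR, trp, ng]
  ext1
  · simp only [Int.cast_one, Int.cast_neg, Int.cast_zero, mul_zero, zero_mul, add_zero, h1]
    ring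
  · simp only [Int.cast_one, Int.cast_neg, Int.cast_zero, zero_add, one_mul]
    congr 2
    ring

private lemma split_ng_ng {m : ℕ} (p : Pt m) : ng (ng p) = p := by
  simp [ng]

private lemma split_dR_dR {m : ℕ} (μ : ℕ) (p : Pt m) : dR μ (dR μ p) = p := by
  rw [split_dR, split_dR]
  ext1
  · simp
  · simp only
    set N : ZMod (11 ^ m) := (11 : ZMod (11 ^ m)) ^ (μ + 1) with hN
    have hu := split_inv μ p.2
    rw [← hN] at hu
    set w : ZMod (11 ^ m) := (1 + N * p.2)⁻¹ with hw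
    have hv : (1 + N * (-p.2 * w)) * (1 + N * p.2) = 1 := by
      have : (1 + N * (-p.2 * w)) * (1 + N * p.2) =
        (1 + N * p.2) - N * p.2 * ((1 + N * p.2) * w) := by ring
      rw [this, hu]
      ring
    have hi : (1 + N * (-p.2 * w))⁻¹ = 1 + N * p.2 :=
      ZMod.inv_eq_of_mul_eq_one (11 ^ m) _ _ hv
    rw [hi]
    calc -(-p.2 * w) * (1 + N * p.2) = p.2 * ((1 + N * p.2) * w) := by ring
      _ = p.2 := by rw [hu, mul_one]

/-- the map `ng ∘ dR` and its iterates -/
private lemma split_iter {m : ℕ} (μ k : ℕ) (p : Pt m) :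
    (fun q : Pt m => ng (dR μ q))^[k] p =
      (p.1 + k, p.2 * (1 + (11 : ZMod (11 ^ m)) ^ (μ + 1) * (k * p.2))⁻¹) := by
  induction k with
  | zero =>
    have h1 : ((1 : ZMod (11 ^ m)))⁻¹ = 1 := ZMod.inv_one (11 ^ m)
    simp [h1]
  | succ k ih =>
    rw [Function.iterate_succ_apply', ih, split_dR]
    simp only [ng]
    ext1
    · push_cast
      ring
    · simp only
      set N : ZMod (11 ^ m) := (11 : ZMod (11 ^ m)) ^ (μ + 1) with hN
      set y := p.2 with hy
      have hk := split_inv μ ((k : ZMod (11 ^ m)) * y)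
      rw [← hN] at hk
      set w : ZMod (11 ^ m) := (1 + N * (k * y))⁻¹ with hw
      have h1 := split_inv μ (y * w)
      rw [← hN] at h1
      have h2 := split_inv μ (((k + 1 : ℕ) : ZMod (11 ^ m)) * y)
      rw [← hN] at h2
      set v : ZMod (11 ^ m) := (1 + N * (y * w))⁻¹ with hv
      have key : (1 + N * (((k + 1 : ℕ) : ZMod (11 ^ m)) * y)) * (w * v) = 1 := by
        have e : (1 + N * (((k + 1 : ℕ) : ZMod (11 ^ m)) * y)) * (w * v) =
            ((1 + N * (k * y)) * w) * v + N * (y * w) * v := by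
          push_cast
          ring
        rw [e, hk, one_mul]
        calc v + N * (y * w) * v = (1 + N * (y * w)) * v := by ring
          _ = 1 := h1
      have hi := ZMod.inv_eq_of_mul_eq_one (11 ^ m) _ _ key
      rw [hi]
      ring

private lemma split_sum_neg {m : ℕ} {F : Pt m → ℂ} (hF : F ∈ anti11 m) (x y : ZMod (11 ^ m)) :
    ∑ i ∈ Finset.range 11, F (x - i * 11 ^ (m - 1), y) = 0 ∧
    ∑ i ∈ Finset.range 11, F (x, y - i * 11 ^ (m - 1)) = 0 := by
  have hcast : ∀ j ∈ Finset.range 11, ((11 - 1 - j : ℕ) : ZMod (11 ^ m)) = 10 - j := by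
    intro j hj
    have hj' : j ≤ 10 := by
      have := Finset.mem_range.1 hj
      omega
    have : (11 - 1 - j : ℕ) = 10 - j := by omega
    rw [this, Nat.cast_sub hj']
    norm_num
  constructor
  · rw [← Finset.sum_range_reflect]
    rw [← (hF (x - 10 * 11 ^ (m - 1), y)).1]
    refine Finset.sum_congr rfl (fun j hj => ?_)
    rw [hcast j hj]
    congr 2
    ring
  · rw [← Finset.sum_range_reflect]
    rw [← (hF (x, y - 10 * 11 ^ (m - 1))).2]
    refine Finset.sum_congr rfl (fun j hj => ?_)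
    rw [hcast j hj]
    congr 2
    ring

private lemma split_mem_ng {m : ℕ} {F : Pt m → ℂ} (hF : F ∈ anti11 m) :
    (fun p => F (ng p)) ∈ anti11 m := by
  intro p
  constructor
  · rw [← (split_sum_neg hF (-p.1) (-p.2)).1]
    refine Finset.sum_congr rfl (fun i _ => ?_)
    simp only [ng]
    congr 2
    ring
  · rw [← (split_sum_neg hF (-p.1) (-p.2)).2]
    refine Finset.sum_congr rfl (fun i _ => ?_)
    simp only [ng]
    congr 2
    ring

private lemma split_mem_dR {m : ℕ} (hm : 1 ≤ m) (μ : ℕ) {F : Pt m → ℂ} (hF : F ∈ anti11 m) :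
    (fun p => F (dR μ p)) ∈ anti11 m := by
  have hNt : (11 : ZMod (11 ^ m)) ^ (μ + 1) * 11 ^ (m - 1) = 0 := by
    have : (11 : ZMod (11 ^ m)) ^ (μ + 1) * 11 ^ (m - 1) = 11 ^ μ * 11 ^ m := by
      rw [← pow_add, ← pow_add]
      congr 1
      omega
    rw [this, split_pow, mul_zero]
  intro p
  constructor
  · rw [← (split_sum_neg hF (-1 - p.1) (-p.2 * (1 + (11 : ZMod (11 ^ m)) ^ (μ + 1) * p.2)⁻¹)).1]
    refine Finset.sum_congr rfl (fun i _ => ?_)
    simp only [split_dR]
    congr 2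
    ring
  · rw [← (split_sum_neg hF (-1 - p.1) (-p.2 * (1 + (11 : ZMod (11 ^ m)) ^ (μ + 1) * p.2)⁻¹)).2]
    refine Finset.sum_congr rfl (fun i _ => ?_)
    simp only [split_dR]
    congr 2
    have e : (11 : ZMod (11 ^ m)) ^ (μ + 1) * (p.2 + i * 11 ^ (m - 1)) =
        (11 : ZMod (11 ^ m)) ^ (μ + 1) * p.2 := by
      calc (11 : ZMod (11 ^ m)) ^ (μ + 1) * (p.2 + i * 11 ^ (m - 1)) =
          (11 : ZMod (11 ^ m)) ^ (μ + 1) * p.2 + i * ((11 : ZMod (11 ^ m)) ^ (μ + 1) * 11 ^ (m - 1)) := by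
            ring
        _ = _ := by rw [hNt, mul_zero, add_zero]
    rw [e]
    have hu := split_inv μ p.2
    set N : ZMod (11 ^ m) := (11 : ZMod (11 ^ m)) ^ (μ + 1) with hN
    set w : ZMod (11 ^ m) := (1 + N * p.2)⁻¹ with hw
    have ht : (11 : ZMod (11 ^ m)) ^ (m - 1) * w = 11 ^ (m - 1) := by
      calc (11 : ZMod (11 ^ m)) ^ (m - 1) * w =
          (11 : ZMod (11 ^ m)) ^ (m - 1) * ((1 + N * p.2) * w) -
            (N * 11 ^ (m - 1)) * (p.2 * w) := by ring
        _ = 11 ^ (m - 1) := by rw [hu, hNt, zero_mul, mul_one, sub_zero]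
    calc -(p.2 + i * 11 ^ (m - 1)) * w = -p.2 * w - i * ((11 : ZMod (11 ^ m)) ^ (m - 1) * w) := by ring
      _ = _ := by rw [ht]

theorem hSplit : HSplit := by
  intro μ m hm φ hφ
  have : NeZero (11 ^ m) := ⟨by positivity⟩
  set τ : Pt m → Pt m := fun q => ng (dR μ q) with hτ
  have hmemτ : ∀ F ∈ anti11 m, LinearMap.funLeft ℂ ℂ τ F ∈ anti11 m := by
    intro F hF
    exact split_mem_dR hm μ (split_mem_ng hF)
  let L : anti11 m →ₗ[ℂ] anti11 m :=
    LinearMap.id - (LinearMap.funLeft ℂ ℂ τ).restrict hmemτ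
  have hL : ∀ (g : anti11 m) (p : Pt m), (L g).1 p = g.1 p - g.1 (τ p) := fun g p => rfl
  have hinjg : ∀ g : anti11 m, (∀ p, g.1 (τ p) = g.1 p) → g = 0 := by
    intro g hg
    have hit : ∀ (k : ℕ) (p : Pt m), g.1 (τ^[k] p) = g.1 p := by
      intro k
      induction k with
      | zero => intro p; rfl
      | succ k ih =>
        intro p
        rw [Function.iterate_succ_apply', hg, ih]
    have htr : ∀ (i : ℕ) (p : Pt m), g.1 (p.1 + i * 11 ^ (m - 1), p.2) = g.1 p := by
      intro i p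
      have h := hit (i * 11 ^ (m - 1)) p
      rw [hτ, split_iter] at h
      have hz : (11 : ZMod (11 ^ m)) ^ (μ + 1) * (((i * 11 ^ (m - 1) : ℕ) : ZMod (11 ^ m)) * p.2) = 0 := by
        have e1 : (11 : ZMod (11 ^ m)) ^ (μ + 1) * 11 ^ (m - 1) = 11 ^ μ * 11 ^ m := by
          rw [← pow_add, ← pow_add]
          congr 1
          omega
        push_cast
        calc (11 : ZMod (11 ^ m)) ^ (μ + 1) * ((i : ZMod (11 ^ m)) * 11 ^ (m - 1) * p.2) =
            ((11 : ZMod (11 ^ m)) ^ (μ + 1) * 11 ^ (m - 1)) * (i * p.2) := by ring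
          _ = 0 := by rw [e1, split_pow, mul_zero, zero_mul]
      rw [hz, add_zero, ZMod.inv_one, mul_one] at h
      rw [← h]
      push_cast
      ring
    ext p
    have h5 := (g.2 p).1
    have : ∑ i ∈ Finset.range 11, g.1 (p.1 + i * 11 ^ (m - 1), p.2) = 11 * g.1 p := by
      rw [Finset.sum_congr rfl (fun i _ => htr i p), Finset.sum_const, Finset.card_range]
      norm_num
    rw [this] at h5
    have h0 : g.1 p = 0 := by
      rcases mul_eq_zero.1 h5 with h | h
      · norm_num at h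
      · exact h
    simpa using h0
  have hinj : Function.Injective L := by
    rw [injective_iff_map_eq_zero]
    intro g hg
    refine hinjg g (fun p => ?_)
    have := hL g p
    rw [hg] at this
    have h0 : (0 : ℂ) = g.1 p - g.1 (τ p) := this
    exact (sub_eq_zero.1 h0.symm).symm
  have hsurj : Function.Surjective L := LinearMap.surjective_of_injective hinj
  have hmψ : (fun p => φ p - φ (dR μ p)) ∈ anti11 m := (anti11 m).sub_mem hφ (split_mem_dR hm μ hφ)
  obtain ⟨f, hf⟩ := hsurj ⟨_, hmψ⟩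
  have hfp : ∀ p, f.1 p - f.1 (τ p) = φ p - φ (dR μ p) := by
    intro p
    rw [← hL, hf]
  have hτ' : ∀ p, τ p = ng (dR μ p) := fun p => rfl
  have haf : ∀ p, f.1 (ng p) = f.1 p := by
    have hsub : (⟨fun p => f.1 (ng p), split_mem_ng f.2⟩ : anti11 m) - f = 0 := by
      refine hinjg _ (fun p => ?_)
      show f.1 (ng (τ p)) - f.1 (τ p) = f.1 (ng p) - f.1 p
      have e1 := hfp p
      have e2 := hfp (dR μ p)
      rw [hτ', split_dR_dR] at e2
      rw [hτ', split_ng_ng]
      rw [hτ'] at e1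
      linear_combination e1 + e2
    intro p
    have := congrArg (fun g : anti11 m => g.1 p) hsub
    have h0 : f.1 (ng p) - f.1 p = 0 := this
    exact sub_eq_zero.1 h0
  refine ⟨f.1, f.2, fun p => φ p - f.1 p, (anti11 m).sub_mem hφ f.2, haf, ?_, fun p => by ring⟩
  intro p
  have e1 := hfp p
  rw [hτ', haf] at e1
  show φ (dR μ p) - f.1 (dR μ p) = φ p - f.1 p
  linear_combination e1

end Pool.Agent.Helper55.P11
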